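import Mathlib
import Pool.Agent.K6.H56.MonoLower4

set_option autoImplicit false

/-!
# Dense point sets in general position whose monotone path covers have superlinear size

The points `(x, y)` of the `M × M` grid are moved by `ρ (1, M)`, where the displacement `ρ` grows
by a huge factor from each point to the next one in the order of the rank `x + M y`. On a grid line
of direction `(a, b)` the heights of the points in any given direction first form a monotone
sequence in one sense, then (after at most one exceptional point) in the other one; so a monotone
path contains `O(1)` long edges (of length at least `M / 4`) on each grid line. A monotone path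
with many long edges of one grid direction is nearly perpendicular to it, hence it serves only one
direction, and the numbers `n / a ^ 2` of the necessary paths add up to `n log n`.

The definitions `Plane`, `GeneralPosition`, `IsDense`, `IsMonotonePath`, `IsEdge`, `HasCover`, `mc`
are those of the starting file `Pool.Agent.R143.MonoPath`.
-/

namespace Pool.Agent.Results.MP_9c8b61_co.SuperlinearCover

open Pool.Agent.R143.MonoPath Filter Topology

/-- There are a constant `α > 0` and `α`-dense `n`-point sets `A n` in general position (for all
`n ≥ 1`) such that `mc (A n) ≥ n log n / 400000` for all `n ≥ 331776`; in particular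
`mc (A n) / n → ∞`. -/
theorem result : ∃ (α : ℝ) (A : ℕ → Finset Plane), 0 < α ∧
    (∀ n : ℕ, 1 ≤ n → (A n).card = n ∧ GeneralPosition (A n) ∧ IsDense α (A n)) ∧
    (∀ n : ℕ, 331776 ≤ n → (n : ℝ) * Real.log n / 400000 ≤ mc (A n)) ∧
    Tendsto (fun n : ℕ => (mc (A n) : ℝ) / n) atTop atTop := by
  have hex : ∀ n : ℕ, ∃ A : Finset Plane, 1 ≤ n → (A.card = n ∧ GeneralPosition A ∧
      IsDense 8 A ∧ (331776 ≤ n → (n : ℝ) * Real.log n / 400000 ≤ mc A)) := by
    intro n
    by_cases hn : 1 ≤ n
    · obtain ⟨A, hA⟩ := Pool.Agent.K6.H56.MonoLower.exists_set n hn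
      exact ⟨A, fun _ => hA⟩
    · exact ⟨∅, fun h => absurd h hn⟩
  choose A hA using hex
  refine ⟨8, A, by norm_num, fun n hn => ⟨(hA n hn).1, (hA n hn).2.1, (hA n hn).2.2.1⟩,
    fun n hn => (hA n (by omega)).2.2.2 hn, ?_⟩
  have h1 : Tendsto (fun n : ℕ => Real.log n / 400000) atTop atTop :=
    (Real.tendsto_log_atTop.comp tendsto_natCast_atTop_atTop).atTop_div_const (by norm_num)
  refine tendsto_atTop_mono' atTop ?_ h1
  filter_upwards [eventually_ge_atTop 331776] with n hn
  have hn0 : (0 : ℝ) < n := by
    have : 0 < n := by omega
    exact_mod_cast this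
  have h2 := (hA n (by omega)).2.2.2 hn
  rw [le_div_iff₀ hn0]
  linarith

end Pool.Agent.Results.MP_9c8b61_co.SuperlinearCover
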